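import Mathlib
import Pool.Prelude.Def_F_458e953d
import Pool.Agent.helper56.SGE.Defs
import Pool.Agent.helper56.SGE.Final

/-!
# MP_a04002_lc: simultaneous geometric embedding of two graphs is `∃ℝ`-complete

All definitions used in the statement are in `Pool.Agent.helper56.SGE.Defs` (`SGE2`, `ETR`, `ER`)
and in the prelude (`ManyOneReducible`, `IsCompleteFor`).
-/

set_option autoImplicit false

namespace Pool.Agent.Results.MP_a04002_lc.SGE2Complete

/-- **SGE₂ is complete for the existential theory of the reals**: the problem of deciding whether
two graphs on a common vertex set have a simultaneous geometric embedding reduces in polynomial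
time to the existential theory of the reals, and every problem that so reduces to the existential
theory of the reals reduces in polynomial time to SGE₂. -/
theorem result : N793a5b8e.IsCompleteFor Pool.Agent.helper56.SGE.ER
    Pool.Agent.helper56.SGE.SGE2 :=
  Pool.Agent.helper56.SGE.Fin.main

end Pool.Agent.Results.MP_a04002_lc.SGE2Complete
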